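import Pool.Agent.helper1.FI.SpecQ2

set_option autoImplicit false

namespace Pool.Agent.FI

open Pool.Agent.helper58.DC Pool.Agent.DI Pool.Agent.GR Pool.Agent.OB

section

set_option linter.unusedSectionVars false

variable {G : Type} [Group G] {p : ℕ} {M : Ideal (integralClosure ℤ ℂ)}

theorem QA1_refl (hs : Setup p M) (z : G → ℂ) : EqmF M z z := by
  intro x
  rw [sub_self]
  exact InM.zero hs

theorem QA1_symm {z w : G → ℂ} (h : EqmF M z w) : EqmF M w z := by
  intro x
  have := (h x).neg
  rwa [neg_sub] at this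

theorem QA1_trans (hs : Setup p M) {z w v : G → ℂ} (h : EqmF M z w) (h' : EqmF M w v) : EqmF M z v := by
  intro x
  have := (h x).add hs (h' x)
  rwa [sub_add_sub_cancel] at this

/-- product on the left by an `IntAt` function -/
theorem QA1_left [Finite G] (hCVF : CVF_stmt) (hs : Setup p M) {a z w : G → ℂ} (ha : ∀ x, IntAt M (a x))
    (h : EqmF M z w) : EqmF M (cv a z) (cv a w) := by
  obtain ⟨-, c2, -, -, -, -, -, -, -, -, -, c12⟩ := hCVF G
  intro x
  have h1 := c12 p M hs a (z - w) ha (fun y => h y) x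
  rw [(c2 a z w).2.2.2] at h1
  exact h1

theorem QA1_right [Finite G] (hCVF : CVF_stmt) (hs : Setup p M) {a z w : G → ℂ} (ha : ∀ x, IntAt M (a x))
    (h : EqmF M z w) : EqmF M (cv z a) (cv w a) := by
  obtain ⟨-, c2, -, -, -, -, -, -, -, -, -, -⟩ := hCVF G
  intro x
  have h1 : InM M (cv (z - w) a x) := by
    unfold cv
    refine InM.finsum hs fun y => ?_
    exact InM.mul_right hs (h y) (ha _)
  rw [(c2 z w a).2.2.1] at h1
  exact h1

theorem QA1_rsk_int (hs : Setup p M) (K : Subgroup G) {z : G → ℂ} (h : ∀ x, IntAt M (z x)) :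
    ∀ x, IntAt M (rsk K z x) := by
  intro x
  unfold rsk
  split_ifs
  · exact h x
  · exact IntAt.zero hs

theorem QA1_rsk_sup (K : Subgroup G) (z : G → ℂ) : ∀ x, x ∉ K → rsk K z x = 0 := by
  intro x hx
  unfold rsk
  rw [if_neg hx]

theorem QA1_rsk_of_sup (K : Subgroup G) (z : G → ℂ) (h : ∀ x, x ∉ K → z x = 0) : rsk K z = z := by
  funext x
  unfold rsk
  split_ifs with hx
  · rfl
  · exact (h x hx).symm

theorem QA1_Cz (L : Subgroup G) (u : G) : Cz L u = L ⊓ cz (Subgroup.zpowers u) := by
  unfold Cz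
  congr 1
  ext x
  rw [Subgroup.mem_centralizer_iff, Subgroup.mem_centralizer_iff]
  constructor
  · intro h y hy
    obtain ⟨k, rfl⟩ := Subgroup.mem_zpowers_iff.1 hy
    have h1 : Commute u x := h u rfl
    exact h1.zpow_left k
  · intro h y hy
    rw [Set.mem_singleton_iff] at hy
    subst hy
    exact h _ (Subgroup.mem_zpowers _)

theorem QA1_BC (K : Subgroup G) (θ : G → ℂ) : BC M K (Bl M K θ) := by
  refine ⟨fun ψ h => h.1, fun ψ hψ ψ' hψ' h => ⟨hψ', ?_⟩⟩
  exact (SB.symm (M := M) (L := K) h).trans hψ.2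

end

theorem QA1 (hQA0 : QA0_stmt) (hBRQ : BRQ_stmt) (hCVF : CVF_stmt) (hIDM : IDM_stmt) (hEIN : EIN_stmt) : QA1_stmt := by
  intro p M hs G _ _ D x θ χ hR P hP l
  have hcom := hR.com
  have hpg := hR.dfa.pgrp
  have hDC : D ≤ cz D := by
    intro d hd
    rw [Subgroup.mem_centralizer_iff]
    intro c hc
    exact hcom c hc d hd
  have hCL : cz D ≤ cz P := Subgroup.centralizer_le hP
  have hCK : ∀ u ∈ D, cz D ≤ Cz (cz P) u := by
    intro u hu y hy
    refine ⟨hCL hy, ?_⟩
    show y ∈ Subgroup.centralizer ({u} : Set G)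
    rw [Subgroup.mem_centralizer_iff]
    intro c hc
    rw [Set.mem_singleton_iff] at hc
    subst hc
    rw [Subgroup.mem_centralizer_iff] at hy
    exact hy c hu
  have hLC : cz P ⊓ cz D = cz D := inf_eq_right.2 hCL
  obtain ⟨c1, c2, c3, c4, c5, c6, c7, c8, c9, c10, c11, c12⟩ := hCVF G
  -- the functions h_u
  have hsub : ∀ K : Subgroup G, Bl M K θ ⊆ IrrOn K := fun K ψ h => h.1
  have hCF : ∀ K : Subgroup G, CF K (eBl M K θ) := fun K => (hIDM G K (Bl M K θ) (hsub K)).1
  have hid : ∀ K : Subgroup G, cv (eBl M K θ) (eBl M K θ) = eBl M K θ :=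
    fun K => (hIDM G K (Bl M K θ) (hsub K)).2.2.1
  have hint : ∀ K : Subgroup G, ∀ y, IntAt M (eBl M K θ y) :=
    fun K => hEIN p M hs G K (Bl M K θ) (QA1_BC K θ)
  have hinv : ∀ u ∈ D, Inv (cz D) (eBl M (Cz (cz P) u) θ) := by
    intro u hu s hsC y
    exact (hCF _).1 s (hCK u hu hsC) y
  induction l with
  | nil =>
    intro _
    refine ⟨dl, ?_, ?_, ?_, ?_, ?_⟩
    · intro y hy
      unfold dl
      rw [if_neg]
      rintro rfl
      exact hy (one_mem _)
    · intro y
      unfold dl
      split_ifs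
      · exact IntAt.one hs
      · exact IntAt.zero hs
    · intro s _ y
      have h1 : s * y * s⁻¹ = 1 ↔ y = 1 := by
        constructor
        · intro h
          have h2 : y = s⁻¹ * (s * y * s⁻¹) * s := by group
          rw [h2, h]
          group
        · rintro rfl
          group
      unfold dl
      by_cases h2 : y = 1
      · rw [if_pos h2, if_pos (h1.2 h2)]
      · rw [if_neg h2, if_neg fun h3 => h2 (h1.1 h3)]
    · have h1 : rsk (cz D) (dl : G → ℂ) = dl := by
        apply QA1_rsk_of_sup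
        intro y hy
        unfold dl
        rw [if_neg]
        rintro rfl
        exact hy (one_mem _)
      rw [h1, (c4 _).2]
      exact QA1_refl hs _
    · intro u hu
      exact absurd hu List.not_mem_nil
  | cons v l ih =>
    intro hl
    obtain ⟨b, hb1, hb2, hb3, hb4, hb5⟩ := ih fun u hu => hl u (List.mem_cons_of_mem _ hu)
    have hv : v ∈ D := hl v List.mem_cons_self
    set h := eBl M (Cz (cz P) v) θ with hh
    have hhsup : ∀ y, y ∉ Cz (cz P) v → h y = 0 := (hCF (Cz (cz P) v)).2
    have hhL : ∀ y, y ∉ cz P → h y = 0 := fun y hy => hhsup y fun h1 => hy h1.1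
    have hhint : ∀ y, IntAt M (h y) := hint _
    have hhinv : Inv (cz D) h := hinv v hv
    refine ⟨cv b h, c6 (cz P) b h hb1 hhL, c11 p M hs b h hb2 hhint, ?_, ?_, ?_⟩
    · intro s hsC y
      exact c5 s b h (hb3 s hsC) (hhinv s hsC) y
    · -- restriction to C
      have e1 : EqmF M (rsk (cz D) (cv b h)) (cv (rsk (cz D) b) (rsk (cz D) h)) := by
        have h1 := hBRQ p M hs G (cz P) D hpg b h hb1 hhL hb2 hhint (fun s hsD => hb3 s (hDC hsD))
          (fun s hsD => hhinv s (hDC hsD))
        rw [hLC] at h1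
        exact h1
      have e2 := QA1_left hCVF hs (hint (cz D)) e1
      refine QA1_trans hs e2 ?_
      rw [← c1]
      refine QA1_trans hs (QA1_right hCVF hs (QA1_rsk_int hs _ hhint) hb4) ?_
      exact hQA0 p M hs G D (Cz (cz P) v) hpg hcom (hCK v hv) θ hR.th
    · intro u hu
      have huD : u ∈ D := hl u hu
      set K := Cz (cz P) u with hK
      have hKeq : cz P ⊓ cz (Subgroup.zpowers u) = K := (QA1_Cz (cz P) u).symm
      have hzD : Subgroup.zpowers u ≤ D := by
        rw [Subgroup.zpowers_le]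
        exact huD
      have e1 : EqmF M (rsk K (cv b h)) (cv (rsk K b) (rsk K h)) := by
        have h1 := hBRQ p M hs G (cz P) (Subgroup.zpowers u) (hpg.to_le hzD) b h hb1 hhL hb2 hhint
          (fun s hsD => hb3 s (hDC (hzD hsD))) (fun s hsD => hhinv s (hDC (hzD hsD)))
        rw [hKeq] at h1
        exact h1
      have hKint : ∀ y, IntAt M (eBl M K θ y) := hint K
      have e2 := QA1_right hCVF hs hKint e1
      rcases List.mem_cons.1 hu with huv | hul
      · -- u = v
        have hKv : K = Cz (cz P) v := by rw [hK, huv]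
        have h3 : rsk K h = h := by
          apply QA1_rsk_of_sup
          intro y hy
          rw [hKv] at hy
          exact hhsup y hy
        have h4 : eBl M K θ = h := by rw [hKv]
        rw [h4] at e2 ⊢
        rw [h3] at e1 e2
        rw [c1] at e2
        have h5 : cv h h = h := hid _
        rw [h5] at e2
        exact QA1_trans hs e2 (QA1_symm e1)
      · -- u ∈ l
        have h6 := hb5 u hul
        have h7 : cv (eBl M K θ) (rsk K h) = cv (rsk K h) (eBl M K θ) :=
          c7 K (eBl M K θ) (rsk K h) (hCF K) (QA1_rsk_sup K h)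
        rw [c1, ← h7, ← c1] at e2
        have e3 := QA1_right hCVF hs (QA1_rsk_int hs K hhint) h6
        exact QA1_trans hs e2 (QA1_trans hs e3 (QA1_symm e1))

end Pool.Agent.FI
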